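import Pool.Agent.Q101.FreeB

/-!
# MP_566259: every separable Banach lattice is an inductive limit of semiprojective ones

* `Q101.Free.BanLat` : bundled real Banach lattices;
* `Q101.SemiProj.IsSemiprojective` : semiprojectivity, verbatim from the problem;
* `Q101.Free.IsContractiveHom` : contractive lattice homomorphisms;
* `Q101.Free.IsInductiveLimit A φ E` : `E` is the inductive limit of `(A_n, φ_n)`.
-/

set_option autoImplicit false

namespace Pool.Agent.Results.MP_566259_an.InductiveLimits

open Q101.Free Q101.SemiProj

universe u

/-- **Full (positive) answer.** Every separable Banach lattice is an inductive limit of a sequence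
of (separable) semiprojective Banach lattices with contractive lattice homomorphisms as
connecting maps. -/
theorem result (E : BanLat.{u}) [TopologicalSpace.SeparableSpace E] :
    ∃ (A : ℕ → BanLat.{u}) (φ : ∀ n, A n →L[ℝ] A (n + 1)),
      (∀ n, TopologicalSpace.SeparableSpace (A n)) ∧
      (∀ n, IsSemiprojective.{u, u} (A n)) ∧
      (∀ n, IsContractiveHom (φ n)) ∧
      IsInductiveLimit A φ E :=
  main E

end Pool.Agent.Results.MP_566259_an.InductiveLimits
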